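import Mathlib
import Pool.Agent.Helper624.Gow1

namespace Pool.Agent.Results.MP_4c807e_co.UpperSeven

open Finset

lemma exists_kernel {α : Type*} [DecidableEq α] (κ : α → ℤ) (C : α → α → Prop)
    (hC : ∀ p q, C p q → C q p) (P : Finset α) :
    ∃ K ⊆ P, (∀ p ∈ K, ∀ q ∈ K, p ≠ q → ¬ C p q) ∧
      ∀ p ∈ P, p ∉ K → ∃ q ∈ K, C p q ∧ κ q ≤ κ p := by
  classical
  induction P using Finset.induction_on_max_value κ with
  | empty => exact ⟨∅, by simp, by simp, by simp⟩
  | insert a s ha hmax ih =>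
    obtain ⟨K, hK, h1, h2⟩ := ih
    by_cases h : ∃ q ∈ K, C a q
    · obtain ⟨q, hq, hqC⟩ := h
      refine ⟨K, hK.trans (subset_insert _ _), h1, ?_⟩
      intro p hp hpK
      rcases mem_insert.1 hp with rfl | hp
      · exact ⟨q, hq, hqC, hmax q (hK hq)⟩
      · exact h2 p hp hpK
    · push Not at h
      refine ⟨insert a K, insert_subset_insert _ hK, ?_, ?_⟩
      · intro p hp q hq hpq
        rcases mem_insert.1 hp with hp1 | hp1 <;> rcases mem_insert.1 hq with hq1 | hq1
        · exact absurd (hp1.trans hq1.symm) hpq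
        · rw [hp1]; exact h q hq1
        · rw [hq1]; intro hc; exact h p hp1 (hC _ _ hc)
        · exact h1 p hp1 q hq1 hpq
      · intro p hp hpK
        rw [mem_insert, not_or] at hpK
        rcases mem_insert.1 hp with rfl | hp
        · exact absurd rfl hpK.1
        · obtain ⟨q, hq, hc⟩ := h2 p hp hpK.2
          exact ⟨q, mem_insert_of_mem hq, hc⟩

/-- the cost of a neighbour whose potential is lower by `δ` -/
noncomputable def B (d : ℕ) (δ : ℤ) : ℕ := ((Ioo (-(d:ℤ)) d).filter fun j => δ ≤ 3 * j).card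

lemma B_anti (d : ℕ) {a b : ℤ} (h : a ≤ b) : B d b ≤ B d a := by
  apply card_le_card
  intro j hj
  rw [mem_filter] at hj ⊢
  exact ⟨hj.1, h.trans hj.2⟩

lemma B_zero (d : ℕ) {a : ℤ} (h : 3 * (d:ℤ) ≤ a) : B d a = 0 := by
  unfold B
  rw [card_eq_zero, filter_eq_empty_iff]
  intro j hj
  rw [mem_Ioo] at hj
  omega

lemma B_add (d : ℕ) (hd : 1 ≤ d) (δ : ℤ) : B d (δ - 1) + B d (-δ - 1) ≤ 2 * d := by
  have h1 : B d (-δ - 1) ≤ ((Ioo (-(d:ℤ)) d).filter fun j => 3 * j ≤ δ + 1).card := by
    apply card_le_card_of_injOn (fun j => -j)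
    · intro j hj
      simp only [coe_filter, mem_Ioo, Set.mem_ofPred_eq] at hj ⊢
      omega
    · intro a _ b _ h
      simpa using h
  set A := (Ioo (-(d:ℤ)) d).filter fun j => δ - 1 ≤ 3 * j with hA
  set A' := (Ioo (-(d:ℤ)) d).filter fun j => 3 * j ≤ δ + 1 with hA'
  have h2 := card_union_add_card_inter A A'
  have h3 : (A ∪ A').card ≤ 2 * d - 1 := by
    refine (card_le_card (union_subset (filter_subset _ _) (filter_subset _ _))).trans ?_
    rw [Int.card_Ioo]; omega
  have h4 : (A ∩ A').card ≤ 1 := by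
    rw [card_le_one]
    intro a ha b hb
    rw [mem_inter, hA, hA', mem_filter, mem_filter] at ha hb
    omega
  have h5 : B d (δ - 1) = A.card := rfl
  omega

lemma greedy {V : Type*} [Fintype V] [DecidableEq V] (G : SimpleGraph V) [DecidableRel G.Adj]
    (d : ℕ) (L : V → Finset ℕ) (h : V → ℤ)
    (hL : ∀ v, ∑ u ∈ G.neighborFinset v, B d (h v - h u) < (L v).card) :
    ∃ c : V → ℕ, (∀ v, c v ∈ L v) ∧ ∀ u v, G.Adj u v → (d:ℤ) ≤ |(c u : ℤ) - c v| := by
  classical
  set P : Finset (V × ℕ) := univ.biUnion fun v => (L v).image fun c => (v, c) with hP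
  have hmem : ∀ v c, (v, c) ∈ P ↔ c ∈ L v := by
    intro v c
    rw [hP, mem_biUnion]
    constructor
    · rintro ⟨w, _, hw⟩
      obtain ⟨x, hx, hxe⟩ := mem_image.1 hw
      simp only [Prod.mk.injEq] at hxe
      rw [← hxe.1, ← hxe.2]; exact hx
    · intro hc
      exact ⟨v, mem_univ _, mem_image.2 ⟨c, hc, rfl⟩⟩
  set C : V × ℕ → V × ℕ → Prop := fun p q =>
    (p.1 = q.1 ∧ p.2 ≠ q.2) ∨ (G.Adj p.1 q.1 ∧ |(p.2 : ℤ) - q.2| < d) with hC
  obtain ⟨K, hK, h1, h2⟩ := exists_kernel (fun p : V × ℕ => 3 * (p.2 : ℤ) - h p.1) C (by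
    rintro p q (⟨a, b⟩ | ⟨a, b⟩)
    · exact Or.inl ⟨a.symm, b.symm⟩
    · exact Or.inr ⟨a.symm, by rw [abs_sub_comm]; exact b⟩) P
  have huniq : ∀ v c c', (v, c) ∈ K → (v, c') ∈ K → c = c' := by
    intro v c c' hc hc'
    by_contra hne
    exact h1 _ hc _ hc' (by simp [hne]) (Or.inl ⟨rfl, hne⟩)
  have hex : ∀ v, ∃ c, (v, c) ∈ K := by
    intro v
    by_contra hcon
    push Not at hcon
    have hsub : L v ⊆ (G.neighborFinset v).biUnion fun u =>
        (L v).filter fun c => ∃ c', (u, c') ∈ K ∧ |(c : ℤ) - c'| < d ∧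
          3 * (c' : ℤ) - h u ≤ 3 * c - h v := by
      intro c hc
      obtain ⟨⟨u, c'⟩, hq, hCq, hκ⟩ := h2 (v, c) ((hmem v c).2 hc) (hcon c)
      rcases hCq with ⟨a, b⟩ | ⟨a, b⟩
      · simp only at a
        subst a
        exact absurd hq (hcon c')
      · rw [mem_biUnion]
        refine ⟨u, (G.mem_neighborFinset v u).2 a, ?_⟩
        rw [mem_filter]
        exact ⟨hc, c', hq, b, hκ⟩
    have hcard : (L v).card ≤ ∑ u ∈ G.neighborFinset v, B d (h v - h u) := by
      refine (card_le_card hsub).trans (card_biUnion_le.trans (sum_le_sum ?_))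
      intro u _
      by_cases hu : ∃ c', (u, c') ∈ K
      · obtain ⟨c0, hc0⟩ := hu
        unfold B
        apply card_le_card_of_injOn (fun c : ℕ => (c : ℤ) - c0)
        · intro c hc
          simp only [coe_filter, Set.mem_ofPred_eq] at hc
          obtain ⟨_, c', hc', hd', hk⟩ := hc
          have := huniq u c' c0 hc' hc0
          subst this
          rw [abs_lt] at hd'
          simp only [coe_filter, mem_Ioo, Set.mem_ofPred_eq]
          omega
        · intro a _ b _ hab
          simp only [sub_left_inj, Nat.cast_inj] at hab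
          exact hab
      · rw [filter_eq_empty_iff.2]
        · simp
        · rintro c _ ⟨c', hc', _⟩
          exact hu ⟨c', hc'⟩
    exact absurd (hL v) (not_lt.2 hcard)
  choose c hc using hex
  refine ⟨c, fun v => (hmem v _).1 (hK (hc v)), fun u v huv => ?_⟩
  by_contra hlt
  push Not at hlt
  exact h1 _ (hc u) _ (hc v) (by
    intro heq
    simp only [Prod.mk.injEq] at heq
    exact huv.ne heq.1) (Or.inr ⟨huv, hlt⟩)

lemma potential {V : Type*} [Fintype V] [DecidableEq V] (G : SimpleGraph V) [DecidableRel G.Adj]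
    (d : ℕ) (hd : 1 ≤ d) (N : V → ℕ)
    (hN : ∀ H : Finset V, H.Nonempty →
      d * ((H ×ˢ H).filter fun p => G.Adj p.1 p.2).card < ∑ v ∈ H, N v) :
    ∃ h : V → ℤ, ∀ v, ∑ u ∈ G.neighborFinset v, B d (h v - h u) < N v := by
  classical
  set W := 3 * d + 1 with hW
  set n := Fintype.card V with hn
  set T := (n + 1) * W with hT
  set S : Finset (V → Fin (T + 1)) := univ.filter fun g => ∀ v, 0 < (g v : ℕ) →
    N v ≤ ∑ u ∈ G.neighborFinset v, B d ((g v : ℤ) - 1 - (g u : ℕ)) with hS
  have hSne : S.Nonempty := by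
    refine ⟨fun _ => 0, ?_⟩
    rw [hS, mem_filter]
    refine ⟨mem_univ _, fun v hv => ?_⟩
    simp at hv
  obtain ⟨g, hg, hmax⟩ := exists_max_image S (fun g => ∑ v, (g v : ℕ)) hSne
  have hg' := (mem_filter.1 hg).2
  have hraise : ∀ v, (g v : ℕ) < T → ∑ u ∈ G.neighborFinset v, B d ((g v : ℤ) - (g u : ℕ)) < N v := by
    intro v hv
    by_contra hcon
    push Not at hcon
    set g2 : V → Fin (T + 1) := Function.update g v ⟨(g v : ℕ) + 1, by omega⟩ with hg2
    have hg2v : (g2 v : ℕ) = (g v : ℕ) + 1 := by rw [hg2, Function.update_self]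
    have hg2w : ∀ w, w ≠ v → g2 w = g w := by
      intro w hw; rw [hg2, Function.update_of_ne hw]
    have hle : ∀ w, (g w : ℕ) ≤ (g2 w : ℕ) := by
      intro w
      by_cases hw : w = v
      · subst hw; rw [hg2v]; omega
      · rw [hg2w w hw]
    have hg2S : g2 ∈ S := by
      rw [hS, mem_filter]
      refine ⟨mem_univ _, fun w hw => ?_⟩
      by_cases hwv : w = v
      · subst hwv
        refine hcon.trans (sum_le_sum fun u hu => ?_)
        have hne : u ≠ w := by
          rw [G.mem_neighborFinset] at hu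
          exact hu.ne'
        rw [hg2v, hg2w u hne]
        apply B_anti
        push_cast; omega
      · have hw' : 0 < (g w : ℕ) := by rw [hg2w w hwv] at hw; exact hw
        refine (hg' w hw').trans (sum_le_sum fun u _ => ?_)
        rw [hg2w w hwv]
        apply B_anti
        have := hle u
        omega
    have h1 : ∑ w, (g2 w : ℕ) ≤ ∑ w, (g w : ℕ) := hmax g2 hg2S
    have h2 : ∑ w, (g w : ℕ) < ∑ w, (g2 w : ℕ) := by
      apply sum_lt_sum (fun w _ => hle w)
      exact ⟨v, mem_univ _, by rw [hg2v]; omega⟩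
    omega
  have hlt : ∀ v, (g v : ℕ) < T := by
    by_contra hcon
    push Not at hcon
    obtain ⟨v0, hv0⟩ := hcon
    obtain ⟨j, hj⟩ : ∃ j : Fin (n + 1), ∀ v, ¬ ((j : ℕ) * W < (g v : ℕ) ∧ (g v : ℕ) ≤ ((j : ℕ) + 1) * W) := by
      by_contra hcon2
      push Not at hcon2
      choose f hf1 hf2 using hcon2
      have hinj : Function.Injective f := by
        intro a b hab
        have a1 := hf1 a
        have a2 := hf2 a
        have b1 := hf1 b
        have b2 := hf2 b
        rw [hab] at a1 a2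
        ext
        by_contra hne
        rcases Nat.lt_or_gt_of_ne hne with h | h
        · have : ((a:ℕ) + 1) * W ≤ (b:ℕ) * W := Nat.mul_le_mul_right _ h
          omega
        · have : ((b:ℕ) + 1) * W ≤ (a:ℕ) * W := Nat.mul_le_mul_right _ h
          omega
      have := Fintype.card_le_of_injective f hinj
      rw [Fintype.card_fin, ← hn] at this
      omega
    set H : Finset V := univ.filter fun v => ((j:ℕ) + 1) * W < (g v : ℕ) with hH
    have hv0H : v0 ∈ H := by
      rw [hH, mem_filter]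
      refine ⟨mem_univ _, ?_⟩
      by_contra h
      push Not at h
      apply hj v0
      refine ⟨?_, h⟩
      have h3 : ((j:ℕ) + 1) * W ≤ T := Nat.mul_le_mul_right _ (by omega)
      have h4 : (j:ℕ) * W < ((j:ℕ) + 1) * W := by
        apply Nat.mul_lt_mul_of_pos_right (by omega) (by omega)
      omega
    have hout : ∀ u, u ∉ H → (g u : ℕ) ≤ (j:ℕ) * W := by
      intro u hu
      rw [hH, mem_filter] at hu
      push Not at hu
      have h1 := hu (mem_univ _)
      by_contra h2
      push Not at h2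
      exact hj u ⟨h2, h1⟩
    set E := (H ×ˢ H).filter fun p => G.Adj p.1 p.2 with hE
    set Sm := ∑ p ∈ E, B d ((g p.1 : ℤ) - 1 - (g p.2 : ℕ)) with hSm
    have h0 : Sm = ∑ v ∈ H, ∑ u ∈ H, if G.Adj v u then B d ((g v : ℤ) - 1 - (g u : ℕ)) else 0 := by
      rw [hSm, hE, sum_filter, sum_product]
    have h1 : ∑ v ∈ H, N v ≤ Sm := by
      rw [h0]
      apply sum_le_sum
      intro v hv
      have hvH := (mem_filter.1 hv).2
      refine (hg' v (by omega)).trans ?_
      rw [← sum_filter]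
      have hsub : (H.filter fun u => G.Adj v u) ⊆ G.neighborFinset v := by
        intro u hu
        rw [mem_filter] at hu
        exact (G.mem_neighborFinset v u).2 hu.2
      refine (sum_subset hsub ?_).symm.le
      intro u hu hu'
      apply B_zero
      have huH : u ∉ H := by
        intro h
        exact hu' (mem_filter.2 ⟨h, (G.mem_neighborFinset v u).1 hu⟩)
      have h2 := hout u huH
      have h3 : ((j:ℕ) + 1) * W = (j:ℕ) * W + W := by ring
      rw [h3] at hvH
      have h4 : (g u : ℕ) + W < (g v : ℕ) := by omega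
      omega
    have h2 : Sm = ∑ p ∈ E, B d ((g p.2 : ℤ) - 1 - (g p.1 : ℕ)) := by
      rw [hSm]
      apply sum_equiv (Equiv.prodComm V V)
      · intro p
        simp only [hE, mem_filter, mem_product, Equiv.prodComm_apply, Prod.fst_swap, Prod.snd_swap]
        constructor
        · rintro ⟨⟨a, b⟩, c⟩; exact ⟨⟨b, a⟩, c.symm⟩
        · rintro ⟨⟨a, b⟩, c⟩; exact ⟨⟨b, a⟩, c.symm⟩
      · intro p _; simp
    have h3 : Sm + Sm ≤ ∑ _p ∈ E, 2 * d := by
      nth_rewrite 2 [h2]
      rw [hSm, ← sum_add_distrib]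
      apply sum_le_sum
      intro p _
      have := B_add d hd ((g p.1 : ℤ) - (g p.2 : ℕ))
      have e1 : (g p.1 : ℤ) - 1 - (g p.2 : ℕ) = (g p.1 : ℤ) - (g p.2 : ℕ) - 1 := by ring
      have e2 : (g p.2 : ℤ) - 1 - (g p.1 : ℕ) = -((g p.1 : ℤ) - (g p.2 : ℕ)) - 1 := by ring
      rw [e1, e2]
      exact this
    rw [sum_const, smul_eq_mul] at h3
    have h4 := hN H ⟨v0, hv0H⟩
    rw [← hE] at h4
    have h5 : E.card * (2 * d) = 2 * (d * E.card) := by ring
    omega
  exact ⟨fun v => (g v : ℕ), fun v => hraise v (hlt v)⟩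

/-- `G` is circularly `t`-choosable -/
def CircChoosable {V : Type*} (G : SimpleGraph V) (t : ℝ) : Prop :=
  ∀ k d : ℕ, 1 ≤ d → d ≤ k → ∀ L : V → Finset ℕ, (∀ v, ∀ x ∈ L v, x < k) →
    (∀ v, t * d ≤ (L v).card) →
    ∃ c : V → ℕ, (∀ v, c v ∈ L v) ∧
      ∀ u v, G.Adj u v → (d:ℤ) ≤ |(c u:ℤ) - c v| ∧ |(c u:ℤ) - c v| ≤ (k:ℤ) - d

theorem general {V : Type*} [Fintype V] (G : SimpleGraph V) (a : ℝ)
    (hG : ∀ H : Finset V, (({p : V × V | p.1 ∈ H ∧ p.2 ∈ H ∧ G.Adj p.1 p.2}.ncard : ℕ) : ℝ) ≤ a * H.card) :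
    CircChoosable G (a + 1) := by
  classical
  intro k d hd hdk L hLk hL
  set L' : V → Finset ℕ := fun v => L v \ range (d - 1) with hL'
  have hcard : ∀ v, a * d + 1 ≤ ((L' v).card : ℝ) := by
    intro v
    have h1 : (L v).card ≤ (L' v).card + (d - 1) := by
      have := card_le_card_sdiff_add_card (s := L v) (t := range (d-1))
      rw [card_range] at this
      exact this
    have h2 : ((L v).card : ℝ) ≤ ((L' v).card : ℝ) + (d - 1) := by
      have : ((L v).card : ℝ) ≤ (((L' v).card + (d - 1) : ℕ) : ℝ) := by exact_mod_cast h1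
      rw [Nat.cast_add, Nat.cast_sub hd] at this
      simpa using this
    have := hL v
    nlinarith
  obtain ⟨h, hh⟩ := potential G d hd (fun v => (L' v).card) (by
    intro H hH
    have h1 : (d * ((H ×ˢ H).filter fun p => G.Adj p.1 p.2).card : ℝ) < ((∑ v ∈ H, (L' v).card : ℕ) : ℝ) := by
      have h2 := hG H
      have h3 : {p : V × V | p.1 ∈ H ∧ p.2 ∈ H ∧ G.Adj p.1 p.2}.ncard =
          ((H ×ˢ H).filter fun p => G.Adj p.1 p.2).card := by
        rw [← Set.ncard_coe_finset]
        congr 1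
        ext p
        simp [and_assoc]
      rw [h3] at h2
      have h4 : ∑ _v ∈ H, (a * d + 1) ≤ ∑ v ∈ H, ((L' v).card : ℝ) := sum_le_sum fun v _ => hcard v
      rw [sum_const, nsmul_eq_mul] at h4
      push_cast
      have h5 : (0:ℝ) < H.card := by exact_mod_cast card_pos.2 hH
      have h6 : (d:ℝ) * ((H ×ˢ H).filter fun p => G.Adj p.1 p.2).card ≤ d * (a * H.card) :=
        mul_le_mul_of_nonneg_left h2 (Nat.cast_nonneg _)
      nlinarith
    exact_mod_cast h1)
  obtain ⟨c, hc1, hc2⟩ := greedy G d L' h hh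
  refine ⟨c, fun v => (mem_sdiff.1 (hc1 v)).1, fun u v huv => ⟨hc2 u v huv, ?_⟩⟩
  have e1 : ∀ v, d - 1 ≤ c v ∧ c v < k := by
    intro v
    have h1 := mem_sdiff.1 (hc1 v)
    rw [mem_range, not_lt] at h1
    exact ⟨h1.2, hLk v _ h1.1⟩
  have a1 := e1 u
  have a2 := e1 v
  rw [abs_le]
  omega

/-- circular choosability (circular choice number) -/
noncomputable def cch {V : Type*} (G : SimpleGraph V) : ℝ := sInf {t : ℝ | 1 ≤ t ∧ CircChoosable G t}

/-- `G` is planar: it has a crossing-free straight-line drawing in the plane (Fáry). -/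
def Planar {n : ℕ} (G : SimpleGraph (Fin n)) : Prop :=
  ∃ p : Fin n → ℝ × ℝ, Function.Injective p ∧
    (∀ u v w : Fin n, G.Adj u v → w ≠ u → w ≠ v → p w ∉ segment ℝ (p u) (p v)) ∧
    (∀ u v x y : Fin n, G.Adj u v → G.Adj x y → s(u, v) ≠ s(x, y) →
      ∀ z ∈ segment ℝ (p u) (p v), z ∈ segment ℝ (p x) (p y) →
        ∃ w : Fin n, (w = u ∨ w = v) ∧ (w = x ∨ w = y) ∧ z = p w)

open Pool.Agent.Helper624.Gow in
lemma mem_seg {t : ℝ} {a b : ℝ × ℝ} {x : ℝ} (h : a.1 + t * a.2 < b.1 + t * b.2)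
    (h1 : a.1 + t * a.2 ≤ x) (h2 : x ≤ b.1 + t * b.2) :
    (x - t * fe ((a.1 + t * a.2, a.2), (b.1 + t * b.2, b.2)) x,
      fe ((a.1 + t * a.2, a.2), (b.1 + t * b.2, b.2)) x) ∈ segment ℝ a b := by
  rw [segment_eq_image]
  have hpos : 0 < b.1 + t * b.2 - (a.1 + t * a.2) := by linarith
  set l := (x - (a.1 + t * a.2)) / (b.1 + t * b.2 - (a.1 + t * a.2)) with hl
  have hlx : l * (b.1 + t * b.2 - (a.1 + t * a.2)) = x - (a.1 + t * a.2) := by
    rw [hl]; field_simp
  refine ⟨l, ⟨?_, ?_⟩, ?_⟩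
  · rw [hl]; apply div_nonneg <;> linarith
  · rw [hl, div_le_one hpos]; linarith
  · have hfe : fe ((a.1 + t * a.2, a.2), (b.1 + t * b.2, b.2)) x = a.2 + l * (b.2 - a.2) := by
      unfold fe sl
      simp only
      rw [hl]
      field_simp
    rw [hfe]
    ext
    · simp only [Prod.fst_add, Prod.smul_fst, smul_eq_mul]
      nlinarith
    · simp only [Prod.snd_add, Prod.smul_snd, smul_eq_mul]
      ring

open Pool.Agent.Helper624.Gow in
lemma planar_bound {n : ℕ} (G : SimpleGraph (Fin n)) (hG : Planar G) (H : Finset (Fin n)) :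
    {p : Fin n × Fin n | p.1 ∈ H ∧ p.2 ∈ H ∧ G.Adj p.1 p.2}.ncard ≤ 6 * H.card := by
  classical
  obtain ⟨p, hp, hpv, hpc⟩ := hG
  -- shear
  obtain ⟨t, ht⟩ : ∃ t : ℝ, ∀ u v : Fin n, (p u).1 + t * (p u).2 = (p v).1 + t * (p v).2 → u = v := by
    set bad : Finset ℝ := (univ : Finset (Fin n × Fin n)).image
      (fun q => -((p q.1).1 - (p q.2).1) / ((p q.1).2 - (p q.2).2)) with hbad
    obtain ⟨t, ht⟩ := Infinite.exists_notMem_finset bad
    refine ⟨t, fun u v h => ?_⟩
    by_contra hne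
    apply ht
    rw [hbad, mem_image]
    refine ⟨(u, v), mem_univ _, ?_⟩
    by_cases hy : (p u).2 - (p v).2 = 0
    · exfalso
      apply hne
      apply hp
      have hy' : (p u).2 = (p v).2 := by linarith
      apply Prod.ext _ hy'
      rw [hy'] at h; linarith
    · simp only
      rw [div_eq_iff hy]; linarith
  set q : Fin n → ℝ × ℝ := fun u => ((p u).1 + t * (p u).2, (p u).2) with hq
  have hqinj : Function.Injective q := by
    intro u v h
    apply ht
    have := congrArg Prod.fst h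
    simpa [hq] using this
  set A := (H ×ˢ H).filter fun e => G.Adj e.1 e.2 ∧ (q e.1).1 < (q e.2).1 with hA
  set E' := A.image fun e => (q e.1, q e.2) with hE'
  set V' := H.image q with hV'
  have hpg : PG V' E' := by
    constructor
    · intro a ha b hb hab
      obtain ⟨u, _, rfl⟩ := mem_image.1 ha
      obtain ⟨v, _, rfl⟩ := mem_image.1 hb
      rw [ht u v hab]
    · intro e he
      obtain ⟨x, hx, rfl⟩ := mem_image.1 he
      rw [hA, mem_filter, mem_product] at hx
      exact mem_image_of_mem _ hx.1.1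
    · intro e he
      obtain ⟨x, hx, rfl⟩ := mem_image.1 he
      rw [hA, mem_filter, mem_product] at hx
      exact mem_image_of_mem _ hx.1.2
    · intro e he
      obtain ⟨x, hx, rfl⟩ := mem_image.1 he
      rw [hA, mem_filter] at hx
      exact hx.2.2
    · intro e he w hw h1 h2 h3
      obtain ⟨x, hx, rfl⟩ := mem_image.1 he
      obtain ⟨c, _, rfl⟩ := mem_image.1 hw
      rw [hA, mem_filter] at hx
      simp only at h1 h2 h3
      have hmem := mem_seg (t := t) (a := p x.1) (b := p x.2) (x := (q c).1) hx.2.2 h1.le h2.le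
      have h4 : fe (q x.1, q x.2) (q c).1 = (p c).2 := by rw [← h3]
      rw [show (((p x.1).1 + t * (p x.1).2, (p x.1).2), ((p x.2).1 + t * (p x.2).2, (p x.2).2)) =
        (q x.1, q x.2) from rfl, h4] at hmem
      apply hpv x.1 x.2 c hx.2.1 _ _ (by
        convert hmem using 1
        ext
        · simp [hq]
        · rfl)
      · rintro rfl; exact lt_irrefl _ h1
      · rintro rfl; exact lt_irrefl _ h2
    · intro e he e' he' hne x h1 h2 h3 h4 h5
      obtain ⟨a, ha, rfl⟩ := mem_image.1 he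
      obtain ⟨b, hb, rfl⟩ := mem_image.1 he'
      rw [hA, mem_filter] at ha hb
      simp only at h1 h2 h3 h4
      have hm1 := mem_seg (t := t) (a := p a.1) (b := p a.2) (x := x) ha.2.2 h1.le h2.le
      have hm2 := mem_seg (t := t) (a := p b.1) (b := p b.2) (x := x) hb.2.2 h3.le h4.le
      rw [show (((p a.1).1 + t * (p a.1).2, (p a.1).2), ((p a.2).1 + t * (p a.2).2, (p a.2).2)) =
        (q a.1, q a.2) from rfl] at hm1
      rw [show (((p b.1).1 + t * (p b.1).2, (p b.1).2), ((p b.2).1 + t * (p b.2).2, (p b.2).2)) =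
        (q b.1, q b.2) from rfl, ← h5] at hm2
      obtain ⟨w, hw1, hw2, hw3⟩ := hpc a.1 a.2 b.1 b.2 ha.2.1 hb.2.1 (by
        intro hs
        rw [Sym2.eq_iff] at hs
        rcases hs with ⟨e1, e2⟩ | ⟨e1, e2⟩
        · exact hne (by rw [e1, e2])
        · have g1 := ha.2.2
          have g2 := hb.2.2
          rw [e1, e2] at g1
          exact absurd g1 (not_lt.2 g2.le)) _ hm1 hm2
      have hx : x = (q w).1 := by
        have e1 := congrArg Prod.fst hw3
        have e2 := congrArg Prod.snd hw3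
        simp only at e1 e2
        simp only [hq]
        rw [← e1, ← e2]; ring
      rcases hw1 with rfl | rfl
      · rw [hx] at h1; exact lt_irrefl _ h1
      · rw [hx] at h2; exact lt_irrefl _ h2
  have h1 := hpg.card_le
  have h2 : V'.card ≤ H.card := card_image_le
  have h3 : E'.card = A.card := by
    apply card_image_of_injective
    intro a b h
    simp only [Prod.mk.injEq] at h
    exact Prod.ext (hqinj h.1) (hqinj h.2)
  have h4 : {p : Fin n × Fin n | p.1 ∈ H ∧ p.2 ∈ H ∧ G.Adj p.1 p.2} ⊆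
      ((A ∪ A.image Prod.swap : Finset (Fin n × Fin n)) : Set (Fin n × Fin n)) := by
    rintro ⟨a, b⟩ ⟨ha, hb, hab⟩
    simp only at ha hb hab
    rw [mem_coe, mem_union]
    rcases lt_trichotomy (q a).1 (q b).1 with h | h | h
    · left
      rw [hA, mem_filter, mem_product]
      exact ⟨⟨ha, hb⟩, hab, h⟩
    · exfalso
      exact hab.ne (ht a b h)
    · right
      rw [mem_image]
      refine ⟨(b, a), ?_, rfl⟩
      rw [hA, mem_filter, mem_product]
      exact ⟨⟨hb, ha⟩, hab.symm, h⟩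
  have h5 := Set.ncard_le_ncard h4 (finite_toSet _)
  rw [Set.ncard_coe_finset] at h5
  have h6 := card_union_le A (A.image Prod.swap)
  have h7 : (A.image Prod.swap).card ≤ A.card := card_image_le
  omega

theorem result :
    -- every finite graph `G` is circularly `(a + 1)`-choosable if no induced subgraph has average
    -- degree above `a`
    (∀ (V : Type) [Fintype V] (G : SimpleGraph V) (a : ℝ),
      (∀ H : Finset V, (({p : V × V | p.1 ∈ H ∧ p.2 ∈ H ∧ G.Adj p.1 p.2}.ncard : ℕ) : ℝ) ≤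
        a * H.card) → CircChoosable G (a + 1)) ∧
    -- every planar graph is circularly `7`-choosable
    (∀ (n : ℕ) (G : SimpleGraph (Fin n)), Planar G → CircChoosable G 7 ∧ cch G ≤ 7) ∧
    -- the supremum is at most `7`
    BddAbove {x : ℝ | ∃ (n : ℕ) (G : SimpleGraph (Fin n)), Planar G ∧ x = cch G} ∧
    sSup {x : ℝ | ∃ (n : ℕ) (G : SimpleGraph (Fin n)), Planar G ∧ x = cch G} ≤ 7 := by
  have h2 : ∀ (n : ℕ) (G : SimpleGraph (Fin n)), Planar G → CircChoosable G 7 ∧ cch G ≤ 7 := by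
    intro n G hG
    have h : CircChoosable G 7 := by
      have := general G 6 (by
        intro H
        exact_mod_cast planar_bound G hG H)
      norm_num at this
      exact this
    refine ⟨h, csInf_le ⟨1, fun t ht => ht.1⟩ ⟨by norm_num, h⟩⟩
  refine ⟨fun V _ G a hG => general G a hG, h2, ⟨7, ?_⟩, ?_⟩
  · rintro x ⟨n, G, hG, rfl⟩
    exact (h2 n G hG).2
  · apply csSup_le
    · refine ⟨cch (⊥ : SimpleGraph (Fin 0)), 0, ⊥, ?_, rfl⟩
      refine ⟨fun i => i.elim0, fun i => i.elim0, fun u => u.elim0, fun u => u.elim0⟩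
    · rintro x ⟨n, G, hG, rfl⟩
      exact (h2 n G hG).2

end Pool.Agent.Results.MP_4c807e_co.UpperSeven
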